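import Mathlib
import Pool.Agent.L0h45.DH.Law4

/-!
# The height of almost all semistable elliptic curves by conductor

No condition on torsion, on the `j`-invariant or on the reduction at `2` and `3` is imposed. Let `1 < β < 10/7`. There are
`≍ Z ^ (5/6)` semistable curves with conductor `N ≤ Z` and height at most `Z ^ β`; we show that for `100%` of them the
height (and hence `|Δ|`) is at most `ψ(N) N`, for every function `ψ` with `ψ(N) → ∞`.
-/

set_option autoImplicit false

namespace Pool.Agent.Results.MP_d8bd92_nt.HeightOfAlmostAllCurves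

open Filter Topology

/-- the conductor of a semistable curve: the product of the primes dividing the discriminant -/
def conductor (W : WeierstrassCurve ℤ) : ℕ := ∏ p ∈ W.Δ.natAbs.primeFactors, p

/-- `W` is an elliptic curve with semistable reduction at all primes: `Δ ≠ 0` and `gcd(c₄, Δ) = 1` (so `W` is a global
minimal model) -/
def Semistable (W : WeierstrassCurve ℤ) : Prop := W.Δ ≠ 0 ∧ IsCoprime W.c₄ W.Δ

/-- the naive height of (a minimal model of) a curve -/
noncomputable def height (W : WeierstrassCurve ℤ) : ℝ := max (|(W.c₄ : ℝ)| ^ 3) ((W.c₆ : ℝ) ^ 2)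

/-- the semistable elliptic curves over `ℚ` with the property `P`, given by the invariants `(c₄, c₆)` of their global
minimal models -/
def Curves (P : WeierstrassCurve ℤ → Prop) : Set (ℤ × ℤ) :=
  {q | ∃ W : WeierstrassCurve ℤ, Semistable W ∧ P W ∧ q = (W.c₄, W.c₆)}

/-- **Theorem.** Let `1 < β < 10/7`. (1) For every `0 < σ < 1/6` there is `C` such that for every `K ≥ 1` and all large
`Z` at most `C K ^ (-σ) Z ^ (5/6)` semistable curves have conductor `N ≤ Z` and height `H` with `K N < H ≤ Z ^ β`. (2) For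
every function `ψ` on the positive integers with `ψ(N) → ∞` the number of the semistable curves with `N ≤ Z`,
`H ≤ Z ^ β` and `H > ψ(N) N` is `o(Z ^ (5/6))`; (3) on the other hand the number of all semistable curves with `N ≤ Z`
and `H ≤ Z ^ β`, divided by `Z ^ (5/6)`, has a positive limit. -/
theorem result (β : ℝ) (hβ : 1 < β) (hβ' : β < 10 / 7) :
    (∀ σ : ℝ, 0 < σ → σ < 1 / 6 → ∃ C : ℝ, 0 < C ∧ ∀ K : ℝ, 1 ≤ K → ∀ᶠ Z : ℝ in atTop,
      ((Curves fun W => (conductor W : ℝ) ≤ Z ∧ height W ≤ Z ^ β ∧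
        K * (conductor W : ℝ) < height W).ncard : ℝ) ≤ C * K ^ (-σ) * Z ^ (5 / 6 : ℝ)) ∧
    (∀ ψ : ℕ → ℝ, Tendsto ψ atTop atTop →
      Tendsto (fun Z : ℝ => ((Curves fun W => (conductor W : ℝ) ≤ Z ∧ height W ≤ Z ^ β ∧
        ψ (conductor W) * (conductor W : ℝ) < height W).ncard : ℝ) / Z ^ (5 / 6 : ℝ)) atTop
        (𝓝 0)) ∧
    ∃ κ : ℝ, 0 < κ ∧ Tendsto (fun Z : ℝ => ((Curves fun W => (conductor W : ℝ) ≤ Z ∧
      height W ≤ Z ^ β).ncard : ℝ) / Z ^ (5 / 6 : ℝ)) atTop (𝓝 κ) := by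
  refine ⟨fun σ h1 h2 => Pool.Agent.L0h45.DH.fin_tail_K β σ hβ hβ' h1 h2,
    fun ψ hψ => Pool.Agent.L0h45.DH.fin_tail_psi β hβ hβ' ψ hψ, ?_⟩
  exact ⟨_, Pool.Agent.L0h45.DH.kap_pos, Pool.Agent.L0h45.DH.fin_all β hβ hβ'⟩

end Pool.Agent.Results.MP_d8bd92_nt.HeightOfAlmostAllCurves
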