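import Mathlib
import Pool.Agent.L0h45.EP.Fin

/-!
# The number of the semistable elliptic curves by conductor and the limit law of `|Δ| / N`

No condition on torsion, on the `j`-invariant or on the reduction at `2` and `3` is imposed. Let `1 < β < 10/7`. We find
the asymptotic number of the semistable curves with conductor `N ≤ Z` and height at most `Z ^ β`: it is `~ κ Z ^ (5/6)`
for an explicit constant `κ` (an Euler product times an area) which does not depend on `β`; and the index `|Δ| / N` of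
these curves has an explicit limit law, a probability distribution on the positive integers.
-/

set_option autoImplicit false

namespace Pool.Agent.Results.MP_d8bd92_nt.IndexLawByConductor

open Filter Topology

/-- the conductor of a semistable curve: the product of the primes dividing the discriminant -/
def conductor (W : WeierstrassCurve ℤ) : ℕ := ∏ p ∈ W.Δ.natAbs.primeFactors, p

/-- `W` is an elliptic curve with semistable reduction at all primes: `Δ ≠ 0` and `gcd(c₄, Δ) = 1` (so `W` is a global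
minimal model) -/
def Semistable (W : WeierstrassCurve ℤ) : Prop := W.Δ ≠ 0 ∧ IsCoprime W.c₄ W.Δ

/-- the naive height of (a minimal model of) a curve -/
noncomputable def height (W : WeierstrassCurve ℤ) : ℝ := max (|(W.c₄ : ℝ)| ^ 3) ((W.c₆ : ℝ) ^ 2)

/-- the semistable elliptic curves over `ℚ` with the property `P`, given by the invariants `(c₄, c₆)` of their global
minimal models -/
def Curves (P : WeierstrassCurve ℤ → Prop) : Set (ℤ × ℤ) :=
  {q | ∃ W : WeierstrassCurve ℤ, Semistable W ∧ P W ∧ q = (W.c₄, W.c₆)}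

/-- the local factor `ρ_p(e)`: `1 - 1/p + (p - 1)² / p³` for `e = 0` and `(p - 1)² / p ^ (e + 3)` for `e ≥ 1` -/
noncomputable def localFactor (p e : ℕ) : ℝ :=
  if e = 0 then 1 - 1 / (p : ℝ) + ((p : ℝ) - 1) ^ 2 / (p : ℝ) ^ 3
  else ((p : ℝ) - 1) ^ 2 / (p : ℝ) ^ (e + 3)

/-- `δ m = (1/3456) ∏_p ρ_p(v_p(m))` -/
noncomputable def density (m : ℕ) : ℝ :=
  1 / 3456 * ∏' p : Nat.Primes, localFactor p (m.factorization p)

/-- `α = 2 ∫ (√max(t³ + 1, 0) - √max(t³ - 1, 0)) dt`, the area of the region `|t³ - s²| ≤ 1` -/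
noncomputable def area : ℝ := 2 * ∫ t : ℝ, (√(max (t ^ 3 + 1) 0) - √(max (t ^ 3 - 1) 0))

/-- `κ m = δ m (1728 m) ^ (5/6) α` -/
noncomputable def weight (m : ℕ) : ℝ := density m * (1728 * m) ^ (5 / 6 : ℝ) * area

/-- the Euler factor `1 - 1/p + (p - 1)² / (p³ (1 - p ^ (-1/6)))` of the total number of the curves -/
noncomputable def eulerFactor (p : ℕ) : ℝ :=
  1 - 1 / (p : ℝ) + ((p : ℝ) - 1) ^ 2 / ((p : ℝ) ^ 3 * (1 - (p : ℝ) ^ (-(1 / 6) : ℝ)))

/-- **Theorem.** (1) For every `m ≥ 1` the semistable curves with `|Δ| = m N` have the natural density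
`δ m = (1/3456) ∏_p ρ_p(v_p(m))` among the pairs `(c₄, c₆)` in the boxes `|c₄| ≤ X²`, `|c₆| ≤ X³`; (2) for all
`1 < β < 10/7` and all sets `S` of positive integers the number of the semistable curves with conductor `N ≤ Z`, height at
most `Z ^ β` and `|Δ| = m N` for some `m ∈ S` is asymptotic to `(∑_{m ∈ S} κ m) Z ^ (5/6)` as `Z → ∞`, where
`κ m = δ m (1728 m) ^ (5/6) α`; (3) `∑ κ m` converges, and
`∑ κ m = (1728 ^ (5/6) / 3456) α ∏_p (1 - 1/p + (p - 1)² / (p³ (1 - p ^ (-1/6)))) > 0`, all products being convergent. -/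
theorem result :
    (∀ m : ℕ, 1 ≤ m → Multipliable (fun p : Nat.Primes => localFactor p (m.factorization p)) ∧
      Tendsto (fun X : ℝ => ((Curves fun W => |(W.c₄ : ℝ)| ≤ X ^ 2 ∧
        |(W.c₆ : ℝ)| ≤ X ^ 3 ∧ W.Δ.natAbs = m * conductor W).ncard : ℝ) / (4 * X ^ 5)) atTop
        (𝓝 (density m))) ∧
    (∀ β : ℝ, 1 < β → β < 10 / 7 → ∀ S : Set ℕ,
      Tendsto (fun Z : ℝ => ((Curves fun W => (conductor W : ℝ) ≤ Z ∧ height W ≤ Z ^ β ∧
        ∃ m ∈ S, W.Δ.natAbs = m * conductor W).ncard : ℝ) / Z ^ (5 / 6 : ℝ)) atTop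
        (𝓝 (∑' m, S.indicator weight m))) ∧
    Summable weight ∧ Multipliable (fun p : Nat.Primes => eulerFactor p) ∧
    ∑' m, weight m = 1728 ^ (5 / 6 : ℝ) / 3456 * area * ∏' p : Nat.Primes, eulerFactor p ∧
    0 < ∑' m, weight m :=
  Pool.Agent.L0h45.EP.law_explicit

end Pool.Agent.Results.MP_d8bd92_nt.IndexLawByConductor
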