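import Mathlib
import Pool.Agent.L0h46.TS.All

/-!
# Szpiro's quotient for the fibres of semistable elliptic surfaces, ordered by conductor

Let `E` be a semistable elliptic surface over the projective line over `ℚ`, given by
`y² = x³ - 27 A(T) x - 54 B(T)` with coprime `A, B ∈ ℤ[T]` of degrees at most `4 n`, `6 n`, such that
the fibre at infinity is smooth. We suppose that the bad fibres are over `k ≥ 3` rational points and
over `m` pairs of conjugate quadratic points; `d = k + 2 m` is their number over the algebraic closure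
and `r = 12 n / d`. For instance the universal elliptic curves with a point of order `6`, `8`, `10`,
`12` or with a subgroup `ℤ/2 × ℤ/4`, `ℤ/2 × ℤ/6`, `ℤ/2 × ℤ/8` are of this kind.

We order the fibres by their conductor. No condition is imposed on the heights of the fibres if
`m = 0`; if `m > 0` we impose `|Δ| ≤ X ^ A` with an arbitrary constant `A > r`. We show that the number
of the fibres with conductor `N ≤ X` is asymptotic to `c X ^ (2 / d)`, that Szpiro's quotient
`|Δ| / N ^ r` has a limiting distribution on the positive reals, that `r < 6`, and hence that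
`N ^ r / ψ(N) ≤ |Δ| ≤ ψ(N) N ^ r` holds for 100% of the fibres, for every function `ψ` which tends to
infinity. Up to a power saving all the fibres satisfy `N ^ (r - δ) ≤ |Δ| ≤ N ^ (r + δ)`.
-/

set_option autoImplicit false

namespace Pool.Agent.Results.MP_d8bd92_nt.SzpiroQuotientOfFibres

open Filter Topology

/-! ### The minimal discriminant and the primes of bad reduction -/

/-- `E` and `W` are isomorphic over `ℚ` -/
def Isomorphic (E W : WeierstrassCurve ℚ) : Prop :=
  ∃ C : WeierstrassCurve.VariableChange ℚ, C • E = W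

/-- the coefficients of the Weierstrass equation are integral at the prime `p` -/
def IntegralAt (p : ℕ) (W : WeierstrassCurve ℚ) : Prop :=
  ¬ p ∣ W.a₁.den ∧ ¬ p ∣ W.a₂.den ∧ ¬ p ∣ W.a₃.den ∧ ¬ p ∣ W.a₄.den ∧ ¬ p ∣ W.a₆.den

/-- the exponent of `p` in the minimal discriminant: the least `p`-adic valuation of the discriminant
of a Weierstrass equation of `E` which is integral at `p` -/
noncomputable def localExponent (p : ℕ) (E : WeierstrassCurve ℚ) : ℕ :=
  sInf {v : ℕ | ∃ W : WeierstrassCurve ℚ, Isomorphic E W ∧ IntegralAt p W ∧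
    padicValRat p W.Δ = v}

/-- `|Δ|`, the absolute value of the minimal discriminant of `E` -/
noncomputable def minimalDiscriminant (E : WeierstrassCurve ℚ) : ℕ :=
  ∏ᶠ p : Nat.Primes, (p : ℕ) ^ localExponent p E

/-- `N`, the product of the primes of bad reduction, that is the primes dividing the minimal
discriminant (the conductor, if `E` is semistable) -/
noncomputable def conductor (E : WeierstrassCurve ℚ) : ℕ :=
  ∏ p ∈ (minimalDiscriminant E).primeFactors, p

/-! ### The surfaces and their fibres -/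

/-- the fibre over the rational number `t` -/
noncomputable def fibre (A B : Polynomial ℤ) (t : ℚ) : WeierstrassCurve ℚ :=
  ⟨0, 0, 0, -27 * Polynomial.aeval t A, -54 * Polynomial.aeval t B⟩

/-- the linear polynomial `a T - b` of the rational point `(b : a)` -/
noncomputable def linear (P : ℤ × ℤ) : Polynomial ℤ :=
  Polynomial.C P.2 * Polynomial.X - Polynomial.C P.1

/-- the quadratic polynomial `a T² + b T + c` -/
noncomputable def quadratic (g : ℤ × ℤ × ℤ) : Polynomial ℤ :=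
  Polynomial.C g.1 * Polynomial.X ^ 2 + Polynomial.C g.2.1 * Polynomial.X + Polynomial.C g.2.2

/-- A semistable elliptic surface: `A` and `B` are coprime over `ℚ`, the discriminant `A³ - B²` (up to
a constant factor) has the degree `12 n`, so that the fibre at infinity is smooth, and it is a constant
times the product of powers of `k ≥ 3` linear polynomials and of `m` quadratic polynomials which are
irreducible, all pairwise not proportional. -/
structure Surface {k m : ℕ} (n : ℕ) (A B : Polynomial ℤ) (P : Fin k → ℤ × ℤ)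
    (g : Fin m → ℤ × ℤ × ℤ) (e : Fin k → ℕ) (f : Fin m → ℕ) (c : ℤ) : Prop where
  n_pos : 1 ≤ n
  deg_A : A.natDegree ≤ 4 * n
  deg_B : B.natDegree ≤ 6 * n
  coprime : IsCoprime (A.map (Int.castRingHom ℚ)) (B.map (Int.castRingHom ℚ))
  c_ne : c ≠ 0
  disc : A ^ 3 - B ^ 2 =
    Polynomial.C c * (∏ i, linear (P i) ^ e i) * ∏ j, quadratic (g j) ^ f j
  deg_disc : ∑ i, e i + 2 * ∑ j, f j = 12 * n
  three_le : 3 ≤ k
  finite : ∀ i, (P i).2 ≠ 0
  distinct : ∀ i j, i ≠ j → (P i).1 * (P j).2 ≠ (P j).1 * (P i).2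
  irreducible : ∀ j, ¬ IsSquare ((g j).2.1 ^ 2 - 4 * (g j).1 * (g j).2.2)
  not_prop : ∀ i j, i ≠ j → (g i).1 * (g j).2.1 ≠ (g i).2.1 * (g j).1 ∨
    (g i).1 * (g j).2.2 ≠ (g i).2.2 * (g j).1
  e_pos : ∀ i, 1 ≤ e i
  f_pos : ∀ j, 1 ≤ f j

open Polynomial in
/-- An example with `k = 4`, `m = 0`, `d = 4`, `r = 3`: the universal elliptic curve with a point of
order `6`. -/
theorem six : Surface 1
    (64 * X ^ 4 + 144 * X ^ 3 + 120 * X ^ 2 + 48 * X + 9 : ℤ[X])
    (-352 * X ^ 6 - 864 * X ^ 5 - 504 * X ^ 4 + 360 * X ^ 3 + 540 * X ^ 2 + 216 * X + 27)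
    ![(-1, 1), (-1, 2), (-9, 10), (0, 1)] ![] ![6, 3, 1, 2] ![] 1728 where
  n_pos := le_rfl
  deg_A := by compute_degree
  deg_B := by compute_degree
  coprime := by
    have h : (-1295360 * X ^ 5 - 2024256 * X ^ 4 - 50256 * X ^ 3 + 1368936 * X ^ 2 + 766800 * X
          + 111537 : ℤ[X]) * (64 * X ^ 4 + 144 * X ^ 3 + 120 * X ^ 2 + 48 * X + 9) +
        (-235520 * X ^ 3 - 319872 * X ^ 2 - 156480 * X - 37176) *
        (-352 * X ^ 6 - 864 * X ^ 5 - 504 * X ^ 4 + 360 * X ^ 3 + 540 * X ^ 2 + 216 * X + 27) =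
        C 81 := by
      rw [show (C (81 : ℤ) : ℤ[X]) = 81 from rfl]
      ring
    have h' := congrArg (Polynomial.map (Int.castRingHom ℚ)) h
    rw [Polynomial.map_add, Polynomial.map_mul, Polynomial.map_mul, Polynomial.map_C] at h'
    have h1 : (C (1 / 81) : ℚ[X]) * C ((Int.castRingHom ℚ) 81) = 1 := by
      rw [← C_mul]
      norm_num
    have key : ∀ U V A B : ℚ[X], U * A + V * B = C ((Int.castRingHom ℚ) 81) → IsCoprime A B :=
      fun U V A B h => ⟨C (1 / 81) * U, C (1 / 81) * V, by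
        rw [mul_assoc, mul_assoc, ← mul_add, h, h1]⟩
    exact key _ _ _ _ h'
  c_ne := by norm_num
  disc := by
    simp only [linear, Fin.prod_univ_succ, Fin.prod_univ_zero, Matrix.cons_val_zero,
      Matrix.cons_val_succ, map_neg, map_one, map_zero, map_ofNat, Matrix.cons_val_fin_one]
    ring
  deg_disc := by simp [Fin.sum_univ_succ]
  three_le := by norm_num
  finite := by decide
  distinct := by decide
  irreducible := fun j => j.elim0
  not_prop := fun j => j.elim0
  e_pos := by decide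
  f_pos := fun j => j.elim0

/-- the smooth fibres with `N ≤ X`, with `|Δ| ≤ X ^ A'` if `m ≠ 0`, with the property `Q N |Δ|` -/
def Fibres (A B : Polynomial ℤ) (m : ℕ) (A' X : ℝ) (Q : ℕ → ℕ → Prop) : Set ℚ :=
  {t | (fibre A B t).Δ ≠ 0 ∧ (conductor (fibre A B t) : ℝ) ≤ X ∧
    (m = 0 ∨ (minimalDiscriminant (fibre A B t) : ℝ) ≤ X ^ A') ∧
    Q (conductor (fibre A B t)) (minimalDiscriminant (fibre A B t))}

/-- the number of the fibres with the property `Q` is `(a + o(1)) X ^ s` -/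
def Asymp (A B : Polynomial ℤ) (m : ℕ) (A' s : ℝ) (Q : ℕ → ℕ → Prop) (a : ℝ) : Prop :=
  (∀ X : ℝ, 2 ≤ X → (Fibres A B m A' X Q).Finite) ∧
  Tendsto (fun X : ℝ => ((Fibres A B m A' X Q).ncard : ℝ) / X ^ s) atTop (𝓝 a)

/-- **Szpiro's quotient for the fibres of semistable elliptic surfaces.** Let `d = k + 2 m` and
`r = 12 n / d`. Then `r < 6`, and there are `c > 0` and an increasing function `Φ` on the positive
reals with the limits `0` and `c` at `0` and at infinity such that for every `A' > r`, among the fibres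
with `N ≤ X` (and `|Δ| ≤ X ^ A'` if `m ≠ 0`):
(1) their number is asymptotic to `c X ^ (2 / d)`; (2) for every `y > 0` the number of those with
`|Δ| ≤ y N ^ r` is asymptotic to `Φ(y) X ^ (2 / d)`; (3) for every `ψ` which tends to infinity the
number of those which do not satisfy `N ^ r ≤ ψ(N) |Δ|` and `|Δ| ≤ ψ(N) N ^ r` is
`o (X ^ (2 / d))`. (4) For all `A'` and `δ > 0` there is `η > 0` such that the number of those which do
not satisfy `N ^ (r - δ) ≤ |Δ| ≤ N ^ (r + δ)` is at most `C X ^ (2 / d - η)`. -/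
theorem result {k m : ℕ} (n : ℕ) (A B : Polynomial ℤ) (P : Fin k → ℤ × ℤ)
    (g : Fin m → ℤ × ℤ × ℤ) (e : Fin k → ℕ) (f : Fin m → ℕ) (c₀ : ℤ)
    (hS : Surface n A B P g e f c₀) (d r : ℝ) (hd : d = k + 2 * m) (hr : r = 12 * n / d) :
    r < 6 ∧
    (∃ (c : ℝ) (Φ : ℝ → ℝ), 0 < c ∧ MonotoneOn Φ (Set.Ioi 0) ∧ Tendsto Φ (𝓝[>] 0) (𝓝 0) ∧
      Tendsto Φ atTop (𝓝 c) ∧ ∀ A' : ℝ, r < A' →
        Asymp A B m A' (2 / d) (fun _ _ => True) c ∧
        (∀ y : ℝ, 0 < y → Asymp A B m A' (2 / d) (fun N D => (D : ℝ) ≤ y * (N : ℝ) ^ r) (Φ y)) ∧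
        ∀ ψ : ℕ → ℝ, Tendsto ψ atTop atTop → Asymp A B m A' (2 / d) (fun N D =>
          ¬ ((N : ℝ) ^ r ≤ ψ N * D ∧ (D : ℝ) ≤ ψ N * (N : ℝ) ^ r)) 0) ∧
    ∀ A' δ : ℝ, 0 < δ → ∃ η C : ℝ, 0 < η ∧ 0 < C ∧ ∀ X : ℝ, 2 ≤ X →
      ((Fibres A B m A' X (fun N D => ¬ ((N : ℝ) ^ (r - δ) ≤ D ∧
        (D : ℝ) ≤ (N : ℝ) ^ (r + δ)))).ncard : ℝ) ≤ C * X ^ (2 / d - η) := by
  have hT : Pool.Agent.L0h46.TS.Surf n A B P g e f c₀ :=
    ⟨⟨hS.three_le, hS.distinct, hS.irreducible, hS.not_prop, hS.e_pos, hS.f_pos⟩, hS.n_pos,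
      hS.deg_A, hS.deg_B, hS.coprime, hS.c_ne, hS.disc, hS.finite, hS.deg_disc⟩
  obtain ⟨h1, ⟨c, Φ, p1, p2, p3, p4, h2⟩, h3⟩ := Pool.Agent.L0h46.TS.all hT
  have e1 : Pool.Agent.L0h46.TS.dg k m = d := hd.symm
  have e2 : Pool.Agent.L0h46.TS.rr e f = r := by
    rw [hr, ← e1, Pool.Agent.L0h46.TS.rr, hT.deg]
    push_cast
    ring
  rw [e2] at h1 h3
  rw [e1] at h3
  refine ⟨h1, ⟨c, Φ, p1, p2, p3, p4, fun A' hA' => ?_⟩, h3⟩
  rw [e2, e1] at h2
  obtain ⟨q1, q2, q3, q4⟩ := h2 A' hA'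
  have hfin : ∀ (Q : ℕ → ℕ → Prop) (X : ℝ), 2 ≤ X → (Fibres A B m A' X Q).Finite :=
    fun Q X hX => (q1 X hX).subset fun t ht => ⟨ht.1, ht.2.1, ht.2.2.1, trivial⟩
  exact ⟨⟨hfin _, q2⟩, fun y hy => ⟨hfin _, q3 y hy⟩, fun ψ hψ => ⟨hfin _, q4 ψ hψ⟩⟩

end Pool.Agent.Results.MP_d8bd92_nt.SzpiroQuotientOfFibres
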