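import Mathlib
import Pool.Agent.L0h46.TQ.All

/-!
# The Szpiro ratio by conductor for the torsion groups `ℤ/8`, `ℤ/10`, `ℤ/12`, `ℤ/2 × ℤ/8`

For each of these groups `T` we count the semistable elliptic curves `E` over `ℚ` such that
`E(ℚ)` contains a copy of `T`, with conductor `N ≤ X` and `|Δ| ≤ X ^ A`, `A` an arbitrary constant.
The modular curve has `c = 6, 8, 10, 10` cusps, four of which are rational while the others are
conjugate in pairs over quadratic fields. The number of the curves is `X ^ (2 / c + o(1))`, the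
ratio `log |Δ| / log N` is within `δ` of `r = 4, 9/2, 24/5, 24/5` for all of them up to a power
saving, and at most `X ^ (t + ε)` of them, `t = 1/5, 1/6, 1/7, 1/7`, have a ratio larger than
`M(ε)`.
-/

set_option autoImplicit false

namespace Pool.Agent.Results.MP_d8bd92_nt.SzpiroRatioQuadraticCusps

/-- the product of the primes dividing `Δ(W)` (the conductor if `gcd(c₄, Δ) = 1`) -/
def conductor (W : WeierstrassCurve ℤ) : ℕ := ∏ p ∈ W.Δ.natAbs.primeFactors, p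

/-- `W` is the minimal model of a semistable elliptic curve over `ℚ` -/
def Semistable (W : WeierstrassCurve ℤ) : Prop := W.Δ ≠ 0 ∧ IsCoprime W.c₄ W.Δ

/-- the group of the rational points of the curve contains a subgroup isomorphic to `T` -/
def HasTorsion (T : Type) [AddCommGroup T] (W : WeierstrassCurve ℤ) : Prop :=
  ∃ f : T →+ (W.map (Int.castRingHom ℚ)).toAffine.Point, Function.Injective f

/-- the invariants `(c₄, c₆)` of the semistable elliptic curves over `ℚ` with a subgroup of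
rational points isomorphic to `T`, with conductor at most `X` and `|Δ| ≤ X ^ A` -/
def Curves (T : Type) [AddCommGroup T] (A X : ℝ) : Set (ℤ × ℤ) :=
  {g | ∃ W : WeierstrassCurve ℤ, Semistable W ∧ HasTorsion T W ∧ (conductor W : ℝ) ≤ X ∧
    |(W.Δ : ℝ)| ≤ X ^ A ∧ (W.c₄, W.c₆) = g}

/-- those among them for which `N ^ (r - δ) ≤ |Δ| ≤ N ^ (r + δ)` fails, `N` the conductor -/
def Exceptions (T : Type) [AddCommGroup T] (A r δ X : ℝ) : Set (ℤ × ℤ) :=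
  {g | ∃ W : WeierstrassCurve ℤ, Semistable W ∧ HasTorsion T W ∧ (conductor W : ℝ) ≤ X ∧
    |(W.Δ : ℝ)| ≤ X ^ A ∧ (W.c₄, W.c₆) = g ∧
    ¬ ((conductor W : ℝ) ^ (r - δ) ≤ |(W.Δ : ℝ)| ∧ |(W.Δ : ℝ)| ≤ (conductor W : ℝ) ^ (r + δ))}

/-- those among them with `N ^ M ≤ |Δ|` -/
def Large (T : Type) [AddCommGroup T] (M A X : ℝ) : Set (ℤ × ℤ) :=
  {g | ∃ W : WeierstrassCurve ℤ, Semistable W ∧ HasTorsion T W ∧ (conductor W : ℝ) ≤ X ∧
    (conductor W : ℝ) ^ M ≤ |(W.Δ : ℝ)| ∧ |(W.Δ : ℝ)| ≤ X ^ A ∧ (W.c₄, W.c₆) = g}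

/-- For the semistable curves with torsion `T`, conductor `N ≤ X` and `|Δ| ≤ X ^ A`: (1) there are
at most `C X ^ (s + ε)`, (2) there are at least `c X ^ s` if `A ≥ r` and `X` is large, (3) all but
`C X ^ (s - η)` of them satisfy `N ^ (r - δ) ≤ |Δ| ≤ N ^ (r + δ)`, (4) at most `C X ^ (t + ε)` of
them satisfy `N ^ M ≤ |Δ|`, with `M` depending on `ε` only. -/
def Law (T : Type) [AddCommGroup T] (s r t : ℝ) : Prop :=
  (∀ A ε : ℝ, 0 < ε → ∃ C : ℝ, 0 < C ∧ ∀ X : ℝ, 1 ≤ X → (Curves T A X).Finite ∧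
    ((Curves T A X).ncard : ℝ) ≤ C * X ^ (s + ε)) ∧
  (∃ c : ℝ, 0 < c ∧ ∀ A : ℝ, r ≤ A → ∃ X₀ : ℝ, ∀ X : ℝ, X₀ ≤ X →
    c * X ^ s ≤ ((Curves T A X).ncard : ℝ)) ∧
  (∀ A δ : ℝ, 0 < δ → ∃ η : ℝ, 0 < η ∧ ∃ C : ℝ, 0 < C ∧ ∀ X : ℝ, 1 ≤ X →
    ((Exceptions T A r δ X).ncard : ℝ) ≤ C * X ^ (s - η)) ∧
  (∀ ε : ℝ, 0 < ε → ∃ M : ℝ, ∀ A : ℝ, ∃ C : ℝ, 0 < C ∧ ∀ X : ℝ, 1 ≤ X →
    (Large T M A X).Finite ∧ ((Large T M A X).ncard : ℝ) ≤ C * X ^ (t + ε))

open Pool.Agent.L0h46.TQ in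
theorem law_of {T : Type} [AddCommGroup T] {s r t : ℝ} (h : LawP (Tor T) s r t) : Law T s r t := by
  have e1 : ∀ A X, Curves T A X = CvA (Tor T) A X := by
    intro A X
    ext g
    constructor
    · rintro ⟨W, h1, h2, h3⟩
      exact ⟨W, ⟨h1, h2⟩, h3⟩
    · rintro ⟨W, ⟨h1, h2⟩, h3⟩
      exact ⟨W, h1, h2, h3⟩
  have e2 : ∀ A δ X, Exceptions T A r δ X = BdA (Tor T) A r δ X := by
    intro A δ X
    ext g
    constructor
    · rintro ⟨W, h1, h2, h3⟩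
      exact ⟨W, ⟨h1, h2⟩, h3⟩
    · rintro ⟨W, ⟨h1, h2⟩, h3⟩
      exact ⟨W, h1, h2, h3⟩
  have e3 : ∀ M A X, Large T M A X = TCA (Tor T) M A X := by
    intro M A X
    ext g
    constructor
    · rintro ⟨W, h1, h2, h3⟩
      exact ⟨W, ⟨h1, h2⟩, h3⟩
    · rintro ⟨W, ⟨h1, h2⟩, h3⟩
      exact ⟨W, h1, h2, h3⟩
  obtain ⟨h1, h2, h3, h4⟩ := h
  refine ⟨?_, ?_, ?_, ?_⟩
  · simpa only [e1] using h1
  · simpa only [e1] using h2
  · simpa only [e2] using h3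
  · simpa only [e3] using h4

/-- **The Szpiro ratio by conductor for the torsion groups with quadratic cusps.** -/
theorem result : Law (ZMod 8) (1 / 3) 4 (1 / 5) ∧ Law (ZMod 10) (1 / 4) (9 / 2) (1 / 6) ∧
    Law (ZMod 12) (1 / 5) (24 / 5) (1 / 7) ∧ Law (ZMod 2 × ZMod 8) (1 / 5) (24 / 5) (1 / 7) :=
  ⟨law_of (Pool.Agent.L0h46.TQ.law8 Pool.Agent.L0h46.TQ.parts),
    law_of (Pool.Agent.L0h46.TQ.law10 Pool.Agent.L0h46.TQ.parts),
    law_of (Pool.Agent.L0h46.TQ.law12 Pool.Agent.L0h46.TQ.parts),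
    law_of (Pool.Agent.L0h46.TQ.law28 Pool.Agent.L0h46.TQ.parts)⟩

end Pool.Agent.Results.MP_d8bd92_nt.SzpiroRatioQuadraticCusps
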